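import Mathlib
import Pool.Agent.Helper36.Prec.Final
import Pool.Agent.Helper36.Prec.Cpt

set_option autoImplicit false

namespace Pool.Agent.Results.MP_0bb520_al.HeredDisconnected

open Pool.Agent.Helper36.Prec

universe u v

/-- Let `G` be a Hausdorff nilpotent topological group which is precompact, sequentially complete,
locally minimal and hereditarily disconnected.  Then its Raikov completion `K` (a Raikov complete
Hausdorff group containing `G` as a dense topological subgroup through `ι`) is hereditarily
disconnected. -/
theorem result {G : Type u} [Group G] [TopologicalSpace G] [IsTopologicalGroup G] [T2Space G]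
    [Group.IsNilpotent G] (hpre : Precompact G) (hseq : SequentiallyComplete G)
    (hmin : LocallyMinimal G) (hG : connectedComponent (1 : G) = {1})
    {K : Type v} [Group K] [TopologicalSpace K] [IsTopologicalGroup K] [T2Space K]
    (hK : RaikovComplete K) (ι : G →* K) (hι : Topology.IsEmbedding ι) (hd : DenseRange ι) :
    connectedComponent (1 : K) = {1} := by
  have : CompactSpace K := compact_of_complete hpre hK ι hι hd
  exact main hseq hmin hG ι hι hd

end Pool.Agent.Results.MP_0bb520_al.HeredDisconnected
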